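import Pool.Agent.Helper23.XT.Defs

/-!
# Lifting of finitely many elements of the residue field of a Henselian local ring
-/

namespace Pool.Agent.Helper68.XT

open Pool.Agent.Helper23.XT

open Filter MvPolynomial

/-- a map of a domain to a local ring whose residue is injective extends to the field of
fractions -/
theorem lift_fraction {A F R : Type*} [CommRing A] [IsDomain A] [Field F] [Algebra A F]
    [IsFractionRing A F] [CommRing R] [IsLocalRing R] (ρ : F →+* IsLocalRing.ResidueField R)
    (ψ : A →+* R) (h : ∀ a, IsLocalRing.residue R (ψ a) = ρ (algebraMap A F a)) :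
    ∃ φ : F →+* R, (∀ a, φ (algebraMap A F a) = ψ a) ∧
      ∀ y, IsLocalRing.residue R (φ y) = ρ y := by
  have hu : ∀ y : nonZeroDivisors A, IsUnit (ψ y) := by
    intro y
    have h1 : (y : A) ≠ 0 := nonZeroDivisors.ne_zero y.2
    have h2 : algebraMap A F y ≠ 0 := by
      intro h3
      exact h1 ((IsFractionRing.injective A F) (by rw [h3, map_zero]))
    have h3 : ρ (algebraMap A F y) ≠ 0 := by
      intro h4
      exact h2 (ρ.injective (by rw [h4, map_zero]))
    rw [← h] at h3
    by_contra h4
    exact h3 ((IsLocalRing.residue_eq_zero_iff _).2 ((IsLocalRing.mem_maximalIdeal _).2 h4))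
  refine ⟨IsLocalization.lift (M := nonZeroDivisors A) hu, fun a => IsLocalization.lift_eq _ _,
    fun y => ?_⟩
  have : (IsLocalRing.residue R).comp (IsLocalization.lift (M := nonZeroDivisors A) hu) = ρ := by
    refine IsLocalization.ringHom_ext (nonZeroDivisors A) ?_
    ext a
    simp [h]
  rw [← this]
  rfl

/-- a map of a field to a Henselian local ring extends to a finite separable extension -/
theorem lift_separable {F E R : Type*} [Field F] [Field E] [Algebra F E] [CommRing R]
    [HenselianLocalRing R] [FiniteDimensional F E] [Algebra.IsSeparable F E]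
    (ρ : E →+* IsLocalRing.ResidueField R) (φ₀ : F →+* R)
    (h : ∀ y, IsLocalRing.residue R (φ₀ y) = ρ (algebraMap F E y)) :
    ∃ φ : E →+* R, (∀ a, φ (algebraMap F E a) = φ₀ a) ∧
      ∀ y, IsLocalRing.residue R (φ y) = ρ y := by
  let pb := Field.powerBasisOfFiniteOfSeparable F E
  have hres : (IsLocalRing.residue R).comp φ₀ = ρ.comp (algebraMap F E) := by
    ext y
    exact h y
  have key : ∀ g : Polynomial F, Polynomial.aeval (ρ pb.gen) (g.map φ₀) =
      ρ (Polynomial.aeval pb.gen g) := by
    intro g
    rw [Polynomial.aeval_def, Polynomial.aeval_def, Polynomial.eval₂_map, Polynomial.hom_eval₂,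
      ← hres]
    rfl
  have hint : IsIntegral F pb.gen := pb.isIntegral_gen
  have hroot : Polynomial.aeval (ρ pb.gen) ((minpoly F pb.gen).map φ₀) = 0 := by
    rw [key, minpoly.aeval, map_zero]
  have hsep : (minpoly F pb.gen).Separable := Algebra.IsSeparable.isSeparable F pb.gen
  have hder : Polynomial.aeval (ρ pb.gen)
      (Polynomial.derivative ((minpoly F pb.gen).map φ₀)) ≠ 0 := by
    rw [Polynomial.derivative_map, key]
    intro h0
    have h1 : Polynomial.aeval pb.gen (Polynomial.derivative (minpoly F pb.gen)) = 0 :=
      ρ.injective (by rw [h0, map_zero])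
    exact hsep.aeval_derivative_ne_zero (minpoly.aeval _ _) h1
  have hT : ∀ f : Polynomial R, f.Monic → ∀ a₀ : IsLocalRing.ResidueField R,
      Polynomial.aeval a₀ f = 0 → Polynomial.aeval a₀ (Polynomial.derivative f) ≠ 0 →
      ∃ a : R, f.IsRoot a ∧ IsLocalRing.residue R a = a₀ := by
    have hT2 := (HenselianLocalRing.TFAE R).out 0 1
    exact hT2.1 inferInstance
  obtain ⟨r, hr, hr'⟩ := hT
    ((minpoly F pb.gen).map φ₀) ((minpoly.monic hint).map φ₀) (ρ pb.gen) hroot hder
  let _ : Algebra F R := φ₀.toAlgebra
  have hr2 : Polynomial.aeval r (minpoly F pb.gen) = 0 := by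
    rw [Polynomial.aeval_def]
    rw [Polynomial.IsRoot, Polynomial.eval_map] at hr
    exact hr
  refine ⟨(pb.lift r hr2).toRingHom, fun a => (pb.lift r hr2).commutes a, fun y => ?_⟩
  obtain ⟨g, rfl⟩ := pb.exists_eq_aeval' y
  have h1 : (pb.lift r hr2).toRingHom (Polynomial.aeval pb.gen g) = Polynomial.aeval r g :=
    pb.lift_aeval r hr2 g
  rw [h1, ← key, ← hr', Polynomial.aeval_def, Polynomial.hom_eval₂, Polynomial.aeval_def,
    Polynomial.eval₂_map]
  rfl

open scoped IntermediateField.algebraAdjoinAdjoin in
/-- a separably generated extension lifts -/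
theorem lift_sepGenerated {K E R : Type*} [Field K] [Field E] [Algebra K E] [CommRing R]
    [HenselianLocalRing R] [Algebra K R] [Algebra.EssFiniteType K E]
    (ρ : E →ₐ[K] IsLocalRing.ResidueField R) {ι : Type*} {v : ι → E}
    (hv : IsTranscendenceBasis K v)
    [Algebra.IsSeparable (IntermediateField.adjoin K (Set.range v)) E] :
    ∃ φ : E →ₐ[K] R, ∀ y, IsLocalRing.residue R (φ y) = ρ y := by
  have hsur : Function.Surjective (IsLocalRing.residue R) := IsLocalRing.residue_surjective
  choose lf hlf using fun i => hsur (ρ (v i))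
  let ψ : Algebra.adjoin K (Set.range v) →ₐ[K] R := (aeval lf).comp hv.1.aevalEquiv.symm.toAlgHom
  have hψ : ∀ a, IsLocalRing.residue R (ψ a) =
      (ρ.toRingHom.comp (algebraMap (IntermediateField.adjoin K (Set.range v)) E))
        (algebraMap (Algebra.adjoin K (Set.range v)) (IntermediateField.adjoin K (Set.range v))
          a) := by
    intro a
    obtain ⟨g, rfl⟩ := hv.1.aevalEquiv.surjective a
    have h1 : ψ (hv.1.aevalEquiv g) = aeval lf g := by
      simp [ψ]
    have h2 : ((algebraMap (Algebra.adjoin K (Set.range v))
        (IntermediateField.adjoin K (Set.range v)) (hv.1.aevalEquiv g) :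
        IntermediateField.adjoin K (Set.range v)) : E) = aeval v g := by
      rw [IntermediateField.algebraAdjoinAdjoin.coe_algebraMap]
      exact hv.1.algebraMap_aevalEquiv g
    have h3 : IsLocalRing.residue R (aeval lf g) = aeval (fun i => ρ (v i)) g := by
      have h4 : (algebraMap R (IsLocalRing.ResidueField R)) (aeval lf g) =
          aeval (fun i => algebraMap R (IsLocalRing.ResidueField R) (lf i)) g :=
        (aeval_algebraMap_apply _ _ _).symm
      rw [← IsLocalRing.ResidueField.algebraMap_eq, h4]
      congr 2
      funext i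
      exact hlf i
    rw [h1, h3]
    show _ = ρ _
    rw [show (algebraMap (IntermediateField.adjoin K (Set.range v)) E)
      (algebraMap (Algebra.adjoin K (Set.range v)) (IntermediateField.adjoin K (Set.range v))
        (hv.1.aevalEquiv g)) = aeval v g from h2]
    have h5 : aeval (fun i => ρ (v i)) = ρ.comp (aeval v) := by
      ext i
      simp
    rw [h5]
    rfl
  obtain ⟨φ₀, h0, h0'⟩ := lift_fraction
    (ρ.toRingHom.comp (algebraMap (IntermediateField.adjoin K (Set.range v)) E)) ψ.toRingHom hψ
  have : Algebra.EssFiniteType (IntermediateField.adjoin K (Set.range v)) E :=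
    Algebra.EssFiniteType.of_comp K _ _
  have : FiniteDimensional (IntermediateField.adjoin K (Set.range v)) E :=
    Algebra.finite_of_essFiniteType_of_isAlgebraic
  obtain ⟨φ, h1, h1'⟩ := lift_separable ρ.toRingHom φ₀ h0'
  refine ⟨{ φ with commutes' := fun c => ?_ }, fun y => h1' y⟩
  have e1 : algebraMap K E c = algebraMap (IntermediateField.adjoin K (Set.range v)) E
      (algebraMap (Algebra.adjoin K (Set.range v)) (IntermediateField.adjoin K (Set.range v))
        (algebraMap K _ c)) := rfl
  show φ (algebraMap K E c) = _
  rw [e1, h1, h0]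
  exact ψ.commutes c

theorem lift_of_henselian {K R : Type*} [Field K] [CommRing R] [IsDomain R]
    [HenselianLocalRing R] [Algebra K R] (hM : MacLane K (IsLocalRing.ResidueField R)) {n : ℕ}
    (a : Fin n → IsLocalRing.ResidueField R) :
    ∃ a' : Fin n → R, (∀ i, IsLocalRing.residue R (a' i) = a i) ∧
      ∀ f : MvPolynomial (Fin n) K, aeval a f = 0 → aeval a' f = 0 := by
  classical
  have hE : Algebra.EssFiniteType K (IntermediateField.adjoin K (Set.range a)) :=
    IntermediateField.essFiniteType_iff.2
      (IntermediateField.fg_adjoin_of_finite (Set.finite_range a))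
  obtain ⟨s, hs, hsep⟩ : ∃ s : Finset (IntermediateField.adjoin K (Set.range a)),
      IsTranscendenceBasis K ((↑) : s → IntermediateField.adjoin K (Set.range a)) ∧
      Algebra.IsSeparable (IntermediateField.adjoin K
        (s : Set (IntermediateField.adjoin K (Set.range a))))
        (IntermediateField.adjoin K (Set.range a)) := by
    obtain _ | ⟨p, hp, hpk⟩ := CharP.exists' K
    · exact exists_isTranscendenceBasis_and_isSeparable_of_perfectField K _
    · haveI : ExpChar K p := .prime hp.out
      refine exists_isTranscendenceBasis_and_isSeparable_of_linearIndepOn_pow_of_essFiniteType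
        p hp.out fun t ht => ?_
      have h1 := hM p hp.out hpk (t.map ⟨Subtype.val, Subtype.val_injective⟩) ?_
      · rw [Finset.coe_map] at h1
        have h2 := h1.comp_of_image (Subtype.val_injective.injOn)
        exact LinearIndepOn.of_comp (IntermediateField.val
          (IntermediateField.adjoin K (Set.range a))).toLinearMap h2
      · rw [Finset.coe_map]
        refine LinearIndepOn.image_of_comp _ _ ?_
        exact ht.map_injOn (IntermediateField.val
          (IntermediateField.adjoin K (Set.range a))).toLinearMap
          (fun x _ y _ h => Subtype.val_injective h)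
  have hr : Set.range ((↑) : s → IntermediateField.adjoin K (Set.range a)) =
    (s : Set (IntermediateField.adjoin K (Set.range a))) := by simp
  rw [← hr] at hsep
  have := hsep
  obtain ⟨φ, hφ⟩ := lift_sepGenerated (IntermediateField.val _) hs
  have hmem : ∀ i, a i ∈ IntermediateField.adjoin K (Set.range a) := fun i =>
    IntermediateField.subset_adjoin _ _ ⟨i, rfl⟩
  refine ⟨fun i => φ ⟨a i, hmem i⟩, fun i => hφ _, fun f hf => ?_⟩
  have h1 : aeval (fun i => φ ⟨a i, hmem i⟩) = φ.comp (aeval fun i => (⟨a i, hmem i⟩ :
      IntermediateField.adjoin K (Set.range a))) := by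
    ext i
    simp
  have h2 : aeval a = (IntermediateField.val _).comp (aeval fun i => (⟨a i, hmem i⟩ :
      IntermediateField.adjoin K (Set.range a))) := by
    ext i
    simp
  rw [h2] at hf
  have h3 : aeval (fun i => (⟨a i, hmem i⟩ : IntermediateField.adjoin K (Set.range a))) f = 0 :=
    (IntermediateField.val _).injective (by rw [map_zero]; exact hf)
  rw [h1, AlgHom.comp_apply, h3, map_zero]

end Pool.Agent.Helper68.XT
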